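import Pool.Agent.L0h40.EQ.Inv

set_option autoImplicit false

/-!
# MP_3fd8c4_al: the cancellation law fails for Borel and for Lebesgue measurable pieces on the circle

Let `t` be irrational and let `G` be the group of isometries of the circle `X = ℝ / ℤ` generated by
the two reflections `x ↦ -x` and `x ↦ 2 t - x` (an infinite dihedral group). Let `𝒜` be any
`G`-invariant algebra of subsets of `X` which contains the Borel sets and consists of Lebesgue
measurable sets, for instance the `σ`-algebra of the Borel sets. Let `α` and `β` be the types in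
`𝒮(𝒜)` of the open half circles from `0` to `1/2` and from `t` to `t + 1/2`. Then
`2 α = 2 β = [X]`, but `α ≠ β`.

Outline. Each of the two reflections maps the half circle that starts at one of its fixed points onto
the complementary open half circle, and single points are absorbed along the orbits of the rotation by
`2 t`; this gives `2 α = [X] = 2 β`. If `α = β` then the difference of the indicator functions of the
half circles is `(u - u ∘ a) + (v - v ∘ b)` with integer valued measurable functions `u, v`, where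
`a, b` are the two reflections. Then `w = 1_A - u + u ∘ a = 1_B + v - v ∘ b` satisfies
`w + w ∘ a = 1 = w + w ∘ b` almost everywhere, so `w` is invariant under the rotation `b ∘ a`, hence
almost everywhere equal to a constant integer `c` by ergodicity, and `2 c = 1`.
-/

namespace Pool.Agent.Results.MP_3fd8c4_al.CircleHalves

open Set MeasureTheory Pool.Agent.L0h40.EQ

/-- the cancellation law in `𝒮(𝒜)` -/
def CancellationLaw {G X : Type} [Group G] [MulAction G X] (𝒜 : InvAlgebra G X) : Prop :=
  ∀ n : ℕ, 1 ≤ n → ∀ α β : 𝒜.Types, n • α = n • β → α = β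

theorem order {t : ℝ} (ht : Irrational t) : addOrderOf (t : Circ) = 0 := by
  rw [addOrderOf_eq_zero_iff, AddCircle.isOfFinAddOrder_iff_exists_rat_eq_div]
  rintro ⟨q, hq⟩
  refine ht ⟨q, ?_⟩
  rw [hq, div_one]

theorem measurable_mem {τ : Circ} {g : Equiv.Perm Circ} (hg : g ∈ Dih τ) :
    Measurable (g : Circ → Circ) ∧ Measurable ((g⁻¹ : Equiv.Perm Circ) : Circ → Circ) := by
  unfold Dih at hg
  have hr : ∀ c : Circ, Measurable (reflection c : Circ → Circ) := by
    intro c
    show Measurable fun x : Circ => c + c - x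
    fun_prop
  induction hg using Subgroup.closure_induction with
  | mem x hx =>
    rcases hx with rfl | hx
    · rw [reflection_inv]; exact ⟨hr 0, hr 0⟩
    · rw [mem_singleton_iff] at hx
      subst hx
      rw [reflection_inv]; exact ⟨hr τ, hr τ⟩
  | one => rw [inv_one]; exact ⟨measurable_id, measurable_id⟩
  | mul x y _ _ hx hy =>
    rw [mul_inv_rev]
    exact ⟨hx.1.comp hy.1, hy.2.comp hx.2⟩
  | inv x _ hx => rw [inv_inv]; exact ⟨hx.2, hx.1⟩

/-- the `σ`-algebra of the Borel sets of the circle, as an algebra invariant under the group generated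
by the reflections `x ↦ -x` and `x ↦ 2 τ - x` -/
def borelAlgebra (τ : Circ) : InvAlgebra (Dih τ) Circ where
  sets := {s | MeasurableSet s}
  empty_mem := by rw [mem_ofPred_eq]; exact MeasurableSet.empty
  univ_mem := by rw [mem_ofPred_eq]; exact MeasurableSet.univ
  union_mem := by
    intro A hA B hB
    rw [mem_ofPred_eq] at *
    exact hA.union hB
  inter_mem := by
    intro A hA B hB
    rw [mem_ofPred_eq] at *
    exact hA.inter hB
  compl_mem := by
    intro A hA
    rw [mem_ofPred_eq] at *
    exact hA.compl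
  smul_mem := by
    intro g A hA
    rw [mem_ofPred_eq] at *
    have h : (fun x => g • x) '' A = ((g : Equiv.Perm Circ)⁻¹ : Equiv.Perm Circ) ⁻¹' A := by
      ext x
      constructor
      · rintro ⟨y, hy, rfl⟩
        have e : ((g : Equiv.Perm Circ)⁻¹ : Equiv.Perm Circ) (g • y) = y :=
          Equiv.symm_apply_apply (g : Equiv.Perm Circ) y
        rw [mem_preimage, e]
        exact hy
      · intro hx
        exact ⟨_, hx, Equiv.apply_symm_apply (g : Equiv.Perm Circ) x⟩
    rw [h]
    exact (measurable_mem g.2).2 hA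

theorem exists_not_measurableSet : ∃ s : Set Circ, ¬ MeasurableSet s := by
  by_contra hcon
  push Not at hcon
  obtain ⟨b, hb, hm⟩ := MeasurableSpace.CountablyGenerated.isCountablyGenerated (α := Circ)
  have h1 : Cardinal.mk {s : Set Circ | MeasurableSet s} ≤ Cardinal.continuum := by
    have := MeasurableSpace.cardinal_measurableSet_le_continuum (s := b)
      ((Cardinal.le_aleph0_iff_set_countable.2 hb).trans Cardinal.aleph0_le_continuum)
    rw [← hm] at this
    exact this
  have h2 : {s : Set Circ | MeasurableSet s} = Set.univ := by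
    ext s; exact ⟨fun _ => trivial, fun _ => hcon s⟩
  rw [h2, Cardinal.mk_univ, Cardinal.mk_set] at h1
  have h3 : Cardinal.continuum ≤ Cardinal.mk Circ := by
    rw [← Cardinal.mk_Ico_real (zero_lt_one' ℝ)]
    refine Cardinal.mk_le_of_injective (f := fun t : Ico (0 : ℝ) 1 => ((t : ℝ) : Circ)) ?_
    rintro ⟨s, hs⟩ ⟨t, ht⟩ h
    exact Subtype.ext (rep_inj hs.1 hs.2 ht.1 ht.2 h)
  exact absurd (h1.trans h3) (not_le.2 (Cardinal.cantor _))

theorem mem_borel {τ : Circ} {s : Set Circ} : s ∈ (borelAlgebra τ).sets ↔ MeasurableSet s := by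
  unfold borelAlgebra
  rw [mem_ofPred_eq]

/-- **The cancellation law fails for Borel and for Lebesgue measurable pieces on the circle.** -/
theorem result :
    -- all invariant algebras between the Borel sets and the Lebesgue measurable sets of the circle
    (∀ t : ℝ, Irrational t → ∀ 𝒜 : InvAlgebra (Dih (t : Circ)) Circ,
      (∀ s, MeasurableSet s → s ∈ 𝒜.sets) → (∀ s ∈ 𝒜.sets, NullMeasurableSet s volume) →
      ∃ (h0 : halfCircle 0 ×ˢ {0} ∈ 𝒜.star) (h1 : halfCircle (t : Circ) ×ˢ {0} ∈ 𝒜.star)
        (hX : (univ : Set Circ) ×ˢ {0} ∈ 𝒜.star),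
        2 • 𝒜.type _ h0 = 𝒜.type _ hX ∧ 2 • 𝒜.type _ h1 = 𝒜.type _ hX ∧
        𝒜.type _ h0 ≠ 𝒜.type _ h1 ∧ ¬ CancellationLaw 𝒜) ∧
    -- the question: a proper invariant subalgebra, even a `σ`-algebra, without the cancellation law
    ∃ (G X : Type) (_ : Group G) (_ : MulAction G X) (𝒜 : InvAlgebra G X),
      𝒜.sets ≠ univ ∧ (∀ A : ℕ → Set X, (∀ n, A n ∈ 𝒜.sets) → (⋃ n, A n) ∈ 𝒜.sets) ∧
      ¬ CancellationLaw 𝒜 := by
  have main : ∀ t : ℝ, Irrational t → ∀ 𝒜 : InvAlgebra (Dih (t : Circ)) Circ,
      (∀ s, MeasurableSet s → s ∈ 𝒜.sets) → (∀ s ∈ 𝒜.sets, NullMeasurableSet s volume) →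
      ∃ (h0 : halfCircle 0 ×ˢ {0} ∈ 𝒜.star) (h1 : halfCircle (t : Circ) ×ˢ {0} ∈ 𝒜.star)
        (hX : (univ : Set Circ) ×ˢ {0} ∈ 𝒜.star),
        2 • 𝒜.type _ h0 = 𝒜.type _ hX ∧ 2 • 𝒜.type _ h1 = 𝒜.type _ hX ∧
        𝒜.type _ h0 ≠ 𝒜.type _ h1 ∧ ¬ CancellationLaw 𝒜 := by
    intro t ht 𝒜 hB hL
    have hτ := order ht
    have e0 : 2 • ty 𝒜 (halfCircle 0) (hB _ (measurable_half 0)) = ty 𝒜 univ 𝒜.univ_mem := by
      rw [two_nsmul]
      exact two_ty hτ hB 0 (Subgroup.subset_closure (by simp))
    have e1 : 2 • ty 𝒜 (halfCircle (t : Circ)) (hB _ (measurable_half _)) =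
        ty 𝒜 univ 𝒜.univ_mem := by
      rw [two_nsmul]
      exact two_ty hτ hB (t : Circ) (Subgroup.subset_closure (by simp))
    have e2 : ty 𝒜 (halfCircle 0) (hB _ (measurable_half 0)) ≠
        ty 𝒜 (halfCircle (t : Circ)) (hB _ (measurable_half _)) := by
      intro h
      exact not_equidec hτ hL ((type_eq _ _).1 h)
    exact ⟨base_star (hB _ (measurable_half 0)), base_star (hB _ (measurable_half _)),
      base_star 𝒜.univ_mem, e0, e1, e2,
      fun hc => e2 (hc 2 (by norm_num) _ _ (e0.trans e1.symm))⟩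
  refine ⟨main, Dih ((√2 : ℝ) : Circ), Circ, inferInstance, inferInstance,
    borelAlgebra ((√2 : ℝ) : Circ), ?_,
    fun A hA => mem_borel.2 (MeasurableSet.iUnion fun n => mem_borel.1 (hA n)), ?_⟩
  · intro h
    obtain ⟨s, hs⟩ := exists_not_measurableSet
    apply hs
    rw [← mem_borel (τ := ((√2 : ℝ) : Circ)), h]
    trivial
  · obtain ⟨_, _, _, _, _, _, h⟩ := main (√2) irrational_sqrt_two
      (borelAlgebra ((√2 : ℝ) : Circ)) (fun s hs => mem_borel.2 hs)
      (fun s hs => (mem_borel.1 hs).nullMeasurableSet)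
    exact h

end Pool.Agent.Results.MP_3fd8c4_al.CircleHalves
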